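import Pool.Agent.Y589.LP.Final

set_option autoImplicit false

/-!
A contracting self-similar group `G` over `d ≥ 2` letters without finite L-presentation, in a form
that passes to many other groups.

The definitions (in `Pool.Agent.Y589.LP.Base`) are, in full:

* `Contracting G`, for a subgroup `G` of the permutations of the set `List X` of words over `X`:
  `G` is finitely generated; every `g ∈ G` fixes the empty word; for `g ∈ G` and a letter `x` there
  are a letter `y` and `h ∈ G` with `g (x w) = y h(w)` for all words `w`; there is a finite subset
  `N` of `G` such that every `g ∈ G` has a `k` such that for every word `v` of length at least `k`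
  there is `h ∈ N` with `g (v w) = g(v) h(w)` for all words `w`.
* `NoFiniteLPres Γ`: there are no `m` and finite sets `Q`, `R` of elements and `Φ` of endomorphisms
  of the free group of rank `m` such that `Γ` is isomorphic to the quotient of that free group by
  the normal closure of `Q` and all `φ r`, for `r ∈ R` and `φ` in the monoid generated by `Φ`.

Claims: `G` has no finite L-presentation; nor has any group `Γ` with a homomorphism onto `G` whose
kernel is the normal closure of a finite set; nor has any finitely generated group with `G` as a
retract; for every contracting self-similar group `K` over a finite alphabet with `e` letters and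
every `n ≥ d + e` the group `G × K` is isomorphic to a contracting self-similar group over `n`
letters, and has no finite L-presentation; for every `n ≥ d + 2` infinitely many pairwise
non-isomorphic contracting self-similar groups over `n` letters have no finite L-presentation.
-/

namespace Pool.Agent.Results.MP_374aea_al.EveryRetract

open Pool.Agent.Y589.LP

theorem result : ∃ (d : ℕ) (G : Subgroup (Equiv.Perm (List (Fin d)))),
    2 ≤ d ∧ Contracting G ∧ NoFiniteLPres G ∧
    (∀ (Γ : Type) [Group Γ] (f : Γ →* G), Function.Surjective f →
      (∃ T : Set Γ, T.Finite ∧ f.ker = Subgroup.normalClosure T) → NoFiniteLPres Γ) ∧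
    (∀ (Γ : Type) [Group Γ], Group.FG Γ → ∀ (f : Γ →* G) (s : G →* Γ), (∀ g, f (s g) = g) →
      NoFiniteLPres Γ) ∧
    (∀ (Y : Type) [Fintype Y] (K : Subgroup (Equiv.Perm (List Y))), Contracting K →
      ∀ n : ℕ, d + Fintype.card Y ≤ n → ∃ P : Subgroup (Equiv.Perm (List (Fin n))),
        Contracting P ∧ NoFiniteLPres P ∧ Nonempty (P ≃* G × K)) ∧
    (∀ n : ℕ, d + 2 ≤ n → ∃ P : ℕ → Subgroup (Equiv.Perm (List (Fin n))),
      (∀ i, Contracting (P i) ∧ NoFiniteLPres (P i)) ∧
      ∀ i j, Nonempty (P i ≃* P j) → i = j) := by
  obtain ⟨d, G, hd, hG, h⟩ := base_group
  refine ⟨d, G, hd, hG, h, ?_, ?_, ?_, ?_⟩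
  · rintro Γ _ f hf ⟨T, hT, hk⟩
    exact of_surj h f hf T hT hk
  · intro Γ _ hΓ f s hs
    exact of_retract h f s hs
  · intro Y _ K hK n hn
    exact sum_none hG h Y K hK n hn
  · intro n hn
    exact infinitely_many hG h n hn

end Pool.Agent.Results.MP_374aea_al.EveryRetract
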